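import Mathlib
import Pool.Agent.V7H73.XI.OA
import Pool.Agent.V7H73.XI.OB

set_option autoImplicit false

/-!
# Deformed Hoffman elements

For a word `w = (n_1, …, n_r)` let `ζ_N(w) = ∑_{N ≥ k_1 > … > k_r ≥ 1} 1 / (k_1^{n_1} ⋯ k_r^{n_r})`, so that the multiple
zeta value `ζ(w)` is the limit of `ζ_N(w)`, and for a real number `x ≥ 0` let
`ζ_x(w) = ∑_N exp (-x) x^N / N! (ζ(w) - ζ_N(w))`, the mean value of `ζ(w) - ζ_N(w)` for a random number `N` with the
Poisson distribution of parameter `x`. For `x = 0` this is `ζ(w)`. Let `K = ℚ(e)`.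

(1) The number `e` and all the numbers `ζ(w) - ζ_x(w)`, where `w` runs over the nonempty words without the exponent `1` (in
particular over the words in `2` and `3`, the Hoffman elements) and `x` over the positive rational numbers, are
algebraically independent over `ℚ`.

(2) The numbers `1` and `ζ(w) - ζ_x(w)`, `w` admissible, `x` positive rational, are linearly independent over `K`. A
nontrivial linear relation `∑ c_w ζ_x(w) = a` with admissible `w` and `c_w, a ∈ K` holds for at most one rational `x ≥ 0`.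

(3) For a finite set `S` of admissible words the defects `|S| + 1 - dim_K ⟨1, ζ_x(w) : w ∈ S⟩`, `x` a rational number
`≥ 0`, have sum at most `|S|`. In particular `1` and the numbers `ζ_x(w)`, `w ∈ S`, are linearly independent over `K` for
all rational `x ≥ 0` with at most `|S|` exceptions.

(4) For a finite set `S` of nonempty words without the exponent `1` the defects
`|S| - trdeg_K K[ζ_x(w) : w ∈ S]`, `x` a rational number `≥ 0`, have sum at most `|S|`, and the numbers `ζ_x(w)`, `w ∈ S`,
are algebraically independent over `K` for all rational `x ≥ 0` with at most `|S|` exceptions.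

(5) Let `S` be any set of nonempty words without the exponent `1` and `y_1, …, y_r` real numbers such that `ζ(w)` is
algebraic over `K(y_1, …, y_r)` for all `w ∈ S`. Then the numbers `ζ_x(w)`, `w ∈ S`, are algebraically independent over
`K` for all positive rational `x` with at most `r` exceptions, and the algebraic defects of a finite subset of `S` at the
positive rational numbers `x` have sum at most `r`.

(6) For all positive rational `x` with at most one exception the numbers `ζ_x(2), ζ_x(2,2), ζ_x(2,2,2), …` are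
algebraically independent over `K`, and for every positive rational `x` the first `n + 1` of them generate an algebra of
transcendence degree at least `n` over `K`.

(7) Let `∑ c_w ζ(w) = a` be a relation with admissible words `w`, rational `a` and rational `c_w`, not all zero.
Then `e` and the numbers `∑ c_w ζ_x(w)`, `x` positive rational, are algebraically independent over `ℚ`.

The proof: the numbers `ζ(w) - ζ_x(w)` are values of E-functions, iterated integrals of `dt / t`, `exp (x t) dt / t` and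
`exp (-x t) dt / t`. By the theorem of Siegel and Shidlovskii everything is reduced to the algebraic independence of the
functions; for this one shows that the derivations of the shuffle algebra generated by the three letters contain, for
every word, a derivation which strips it (a Jordan algebra argument).
-/

namespace Pool.Agent.Results.MP_c2d7b4_nt.DeformedHoffmanH73

open Set Filter Pool.Agent.V7H73.XI
open Pool.Agent.Y113 (ev)

/-- `ζ_N(n_1, …, n_r) = ∑_{N ≥ k_1 > … > k_r ≥ 1} 1 / (k_1^{n_1} ⋯ k_r^{n_r})` -/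
noncomputable def trunc : List ℕ → ℕ → ℝ
  | [], _ => 1
  | n :: w, N => ∑ k ∈ Finset.range N, trunc w k / ((k : ℝ) + 1) ^ n

/-- the multiple zeta value `ζ(n_1, …, n_r)`, the sum over `k_1` of the sums over the other variables -/
noncomputable def mzv : List ℕ → ℝ
  | [] => 1
  | n :: w => ∑' k : ℕ, trunc w k / ((k : ℝ) + 1) ^ n

/-- `ζ_x(w) = ∑_N exp (-x) x^N / N! (ζ(w) - ζ_N(w))` -/
noncomputable def deformed (x : ℝ) (w : List ℕ) : ℝ :=
  ∑' N : ℕ, Real.exp (-x) * (x ^ N / N.factorial) * (mzv w - trunc w N)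

/-- admissible words: `n_1 ≥ 2` and `n_i ≥ 1` -/
def Admissible (w : List ℕ) : Prop := ∃ n l, w = n :: l ∧ 2 ≤ n ∧ ∀ m ∈ l, 1 ≤ m

/-- nonempty words without the exponent `1`; these contain the nonempty words in `2` and `3` -/
def NoOne (w : List ℕ) : Prop := w ≠ [] ∧ ∀ m ∈ w, 2 ≤ m

/-- the field `ℚ(e)` -/
noncomputable abbrev K : IntermediateField ℚ ℝ := IntermediateField.adjoin ℚ {Real.exp 1}

/-- positive rational numbers -/
abbrev Pos : Type := {x : ℚ // 0 < x}

/-- `|S| + 1 - dim_K ⟨1, ζ_x(w) : w ∈ S⟩` -/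
noncomputable def linearDefect (S : Finset (List ℕ)) (x : ℝ) : ℕ :=
  S.card + 1 - Module.finrank K (Submodule.span K (insert (1 : ℝ) (deformed x '' (S : Set (List ℕ)))))

/-- `|S| - trdeg_K K[ζ_x(w) : w ∈ S]` -/
noncomputable def algebraicDefect (S : Finset (List ℕ)) (x : ℝ) : ℕ :=
  S.card - Cardinal.toNat (Algebra.trdeg K (Algebra.adjoin K (deformed x '' (S : Set (List ℕ)))))

theorem NoOne.admissible {w : List ℕ} (h : NoOne w) : Admissible w := by
  obtain ⟨h1, h2⟩ := h
  cases w with
  | nil => exact absurd rfl h1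
  | cons n l => exact ⟨n, l, rfl, h2 n (by simp), fun m hm => le_trans (by norm_num) (h2 m (by simp [hm]))⟩

theorem Admissible.one_le {w : List ℕ} (h : Admissible w) : w ≠ [] ∧ ∀ m ∈ w, 1 ≤ m := by
  obtain ⟨n, l, rfl, h1, h2⟩ := h
  refine ⟨by simp, fun m hm => ?_⟩
  rcases List.mem_cons.1 hm with rfl | hm
  · omega
  · exact h2 m hm

/-! ### convergence -/

theorem trunc_nonneg (w : List ℕ) (N : ℕ) : 0 ≤ trunc w N := by
  induction w generalizing N with
  | nil => rw [trunc]; exact zero_le_one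
  | cons n w ih =>
    rw [trunc]
    exact Finset.sum_nonneg fun k _ => div_nonneg (ih k) (by positivity)

theorem trunc_zero {w : List ℕ} (hw : w ≠ []) : trunc w 0 = 0 := by
  cases w with
  | nil => exact absurd rfl hw
  | cons n w => rw [trunc, Finset.sum_range_zero]

theorem trunc_succ (n : ℕ) (w : List ℕ) (N : ℕ) :
    trunc (n :: w) (N + 1) = trunc (n :: w) N + trunc w N / ((N : ℝ) + 1) ^ n := by
  rw [trunc, trunc, Finset.sum_range_succ]

theorem sum_le (m : ℕ) (hm : 1 ≤ m) (l : List ℕ) (N : ℕ) :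
    ∑ k ∈ Finset.range N, trunc (m :: l) k / ((k : ℝ) + 1) ^ 2 + trunc (m :: l) N / N ≤
      ∑ k ∈ Finset.range N, trunc l k / ((k : ℝ) + 1) ^ 2 := by
  induction N with
  | zero => simp
  | succ N ih =>
    rw [Finset.sum_range_succ, Finset.sum_range_succ]
    have hN : (0 : ℝ) < (N : ℝ) + 1 := by positivity
    have h1 : trunc l N / ((N : ℝ) + 1) ^ m ≤ trunc l N / ((N : ℝ) + 1) := by
      refine div_le_div_of_nonneg_left (trunc_nonneg l N) hN ?_
      calc ((N : ℝ) + 1) = ((N : ℝ) + 1) ^ 1 := (pow_one _).symm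
        _ ≤ ((N : ℝ) + 1) ^ m := pow_le_pow_right₀ (by linarith) hm
    have h2 : trunc (m :: l) N / ((N : ℝ) + 1) ^ 2 + trunc (m :: l) N / ((N : ℝ) + 1) ≤ trunc (m :: l) N / N := by
      rcases Nat.eq_zero_or_pos N with h0 | h0
      · rw [h0, trunc_zero (by simp)]; simp
      · have hN' : (0 : ℝ) < N := by exact_mod_cast h0
        have h3 : 1 / ((N : ℝ) + 1) ^ 2 + 1 / ((N : ℝ) + 1) ≤ 1 / (N : ℝ) := by
          rw [div_add_div _ _ (by positivity) (by positivity), div_le_div_iff₀ (by positivity) hN']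
          nlinarith
        have h4 := mul_le_mul_of_nonneg_left h3 (trunc_nonneg (m :: l) N)
        calc trunc (m :: l) N / ((N : ℝ) + 1) ^ 2 + trunc (m :: l) N / ((N : ℝ) + 1)
            = trunc (m :: l) N * (1 / ((N : ℝ) + 1) ^ 2 + 1 / ((N : ℝ) + 1)) := by ring
          _ ≤ trunc (m :: l) N * (1 / (N : ℝ)) := h4
          _ = trunc (m :: l) N / N := by ring
    have h3 : trunc (m :: l) (N + 1) / ((N + 1 : ℕ) : ℝ) ≤
        trunc (m :: l) N / ((N : ℝ) + 1) + trunc l N / ((N : ℝ) + 1) ^ 2 := by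
      rw [trunc_succ, add_div]
      push_cast
      have h4 : trunc l N / ((N : ℝ) + 1) ^ m / ((N : ℝ) + 1) ≤ trunc l N / ((N : ℝ) + 1) ^ 2 := by
        rw [sq, ← div_div]
        gcongr
      linarith
    linarith

theorem sum_bound (l : List ℕ) (hl : ∀ m ∈ l, 1 ≤ m) (N : ℕ) :
    ∑ k ∈ Finset.range N, trunc l k / ((k : ℝ) + 1) ^ 2 ≤ ∑ k ∈ Finset.range N, 1 / ((k : ℝ) + 1) ^ 2 := by
  induction l with
  | nil => simp only [trunc]; exact le_rfl
  | cons m l ih =>
    have h1 := sum_le m (hl m (by simp)) l N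
    have h2 := ih fun m' hm' => hl m' (by simp [hm'])
    have h3 : 0 ≤ trunc (m :: l) N / N := div_nonneg (trunc_nonneg _ _) (Nat.cast_nonneg _)
    linarith

theorem summable_mzv {n : ℕ} (hn : 2 ≤ n) {l : List ℕ} (hl : ∀ m ∈ l, 1 ≤ m) :
    Summable (fun k : ℕ => trunc l k / ((k : ℝ) + 1) ^ n) := by
  have h0 : Summable (fun k : ℕ => 1 / ((k : ℝ) + 1) ^ 2) := by
    have h1 : Summable (fun k : ℕ => 1 / (k : ℝ) ^ 2) := Real.summable_one_div_nat_pow.2 (by norm_num)
    have h2 := (summable_nat_add_iff 1).2 h1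
    simpa using h2
  refine summable_of_sum_range_le (c := ∑' k : ℕ, 1 / ((k : ℝ) + 1) ^ 2)
    (fun k => div_nonneg (trunc_nonneg _ _) (by positivity)) fun N => ?_
  have h1 : ∑ k ∈ Finset.range N, trunc l k / ((k : ℝ) + 1) ^ n ≤ ∑ k ∈ Finset.range N, trunc l k / ((k : ℝ) + 1) ^ 2 := by
    refine Finset.sum_le_sum fun k _ => div_le_div_of_nonneg_left (trunc_nonneg _ _) (by positivity) ?_
    exact pow_le_pow_right₀ (by have : (0 : ℝ) ≤ k := Nat.cast_nonneg k; linarith) hn
  refine h1.trans ((sum_bound l hl N).trans (h0.sum_le_tsum _ fun k _ => by positivity))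

theorem tendsto_trunc {w : List ℕ} (hw : Admissible w) : Tendsto (trunc w) atTop (nhds (mzv w)) := by
  obtain ⟨n, l, rfl, h1, h2⟩ := hw
  exact (summable_mzv h1 h2).hasSum.tendsto_sum_nat

theorem deformed_zero {w : List ℕ} (hw : w ≠ []) : deformed 0 w = mzv w := by
  rw [deformed, tsum_eq_single 0]
  · rw [trunc_zero hw]; simp
  · intro N hN
    rw [zero_pow hN]; simp

/-! ### the values -/

theorem trunc_eq {w : List ℕ} (hw : ∀ m ∈ w, 1 ≤ m) (N : ℕ) : trunc w N = ((TH (w.map (· - 1)) N : ℚ) : ℝ) := by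
  induction w generalizing N with
  | nil => rw [trunc, List.map_nil, TH_nil, Rat.cast_one]
  | cons n w ih =>
    rw [trunc, List.map_cons, TH_cons, Nat.sub_add_cancel (hw n (by simp)), Rat.cast_sum]
    refine Finset.sum_congr rfl fun k _ => ?_
    rw [ih (fun m hm => hw m (by simp [hm])) k]
    push_cast
    rfl

theorem deformed_eq {w : List ℕ} (hw : ∀ m ∈ w, 1 ≤ m) {x : ℚ} (hx : x ≠ 0) :
    mzv w - deformed x w = ev 1 (PW (w.map (· - 1)) x) := by
  obtain ⟨h1, h2⟩ := ev_PW (w.map (· - 1)) hx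
  simp only [← trunc_eq hw] at h1 h2
  have h3 : HasSum (fun N : ℕ => (x : ℝ) ^ N / N.factorial) (Real.exp x) := by
    have h4 := NormedSpace.expSeries_div_hasSum_exp (𝔸 := ℝ) (x : ℝ)
    rwa [← Real.exp_eq_exp_ℝ] at h4
  have h5 : HasSum (fun N : ℕ => Real.exp (-x) * ((x : ℝ) ^ N / N.factorial) * mzv w) (mzv w) := by
    have h6 := (h3.mul_left (Real.exp (-x))).mul_right (mzv w)
    rwa [← Real.exp_add, neg_add_cancel, Real.exp_zero, one_mul] at h6
  have h6 := h5.sub h1.hasSum
  rw [h2] at h6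
  have h7 : deformed x w = mzv w - ev 1 (PW (w.map (· - 1)) x) := by
    rw [deformed, ← h6.tsum_eq]
    refine tsum_congr fun N => ?_
    ring
  rw [h7]
  ring

theorem map_inj {c : ℕ} {w w' : List ℕ} (hw : ∀ m ∈ w, c ≤ m) (hw' : ∀ m ∈ w', c ≤ m)
    (h : w.map (· - c) = w'.map (· - c)) : w = w' := by
  have key : ∀ v : List ℕ, (∀ m ∈ v, c ≤ m) → (v.map (· - c)).map (· + c) = v := by
    intro v hv
    rw [List.map_map]
    conv_rhs => rw [← List.map_id v]
    refine List.map_congr_left fun m hm => ?_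
    show m - c + c = m
    exact Nat.sub_add_cancel (hv m hm)
  rw [← key w hw, h, key w' hw']

theorem main_AI : AlgebraicIndependent ℚ (fun o : Option ({w // NoOne w} × Pos) =>
    o.elim (Real.exp 1) fun p => mzv p.1 - deformed (p.2 : ℚ) p.1) := by
  let g : {w // NoOne w} × Pos → Wx := fun p => (⟨p.1.1.map (· - 2), by simpa using p.1.2.1⟩, p.2)
  have hg : Function.Injective g := by
    rintro ⟨⟨w, hw⟩, x⟩ ⟨⟨w', hw'⟩, x'⟩ h
    simp only [g, Prod.mk.injEq, Subtype.mk.injEq] at h
    obtain ⟨h1, h2⟩ := h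
    have h3 := map_inj hw.2 hw'.2 h1
    subst h3 h2
    rfl
  have h := AI_Pf_values.comp (Option.map g) (Option.map_injective hg)
  convert h using 1
  funext o
  cases o with
  | none => rfl
  | some p =>
    show mzv p.1 - deformed (p.2 : ℚ) p.1 = ev 1 (PW ((p.1.1.map (· - 2)).map (· + 1)) (p.2 : ℚ))
    rw [deformed_eq p.1.2.admissible.one_le.2 p.2.2.ne']
    congr 2
    rw [List.map_map]
    refine List.map_congr_left fun m hm => ?_
    have := p.1.2.2 m hm
    show m - 1 = m - 2 + 1
    omega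

theorem main_LI : LinearIndependent K (fun o : Option ({w // Admissible w} × Pos) =>
    o.elim (1 : ℝ) fun p => mzv p.1 - deformed (p.2 : ℚ) p.1) := by
  let g : {w // Admissible w} × Pos → Sy := fun p => Sy.P p.2 (p.1.1.head p.1.2.one_le.1 - 1) (p.1.1.tail.map (· - 1))
  have hg : Function.Injective g := by
    rintro ⟨⟨w, hw⟩, x⟩ ⟨⟨w', hw'⟩, x'⟩ h
    simp only [g, Sy.P.injEq] at h
    obtain ⟨h0, h1, h2⟩ := h
    have h3 : w.map (· - 1) = w'.map (· - 1) := by
      have e : ∀ (v : List ℕ) (hv : v ≠ []), v.map (· - 1) = (v.head hv - 1) :: v.tail.map (· - 1) := by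
        intro v hv
        rw [← List.map_cons (f := (· - 1)), List.cons_head_tail]
      rw [e w hw.one_le.1, e w' hw'.one_le.1, h1, h2]
    have h4 := map_inj hw.one_le.2 hw'.one_le.2 h3
    subst h4 h0
    rfl
  let F : Option ({w // Admissible w} × Pos) → Sy := fun o => o.elim Sy.one g
  have hF : Function.Injective F := by
    rintro (_ | p) (_ | q) h
    · rfl
    · exact absurd h (by simp [F, g])
    · exact absurd h (by simp [F, g])
    · exact congrArg some (hg h)
  have h := LI_field (f := fun o => (F o).v) (fun o => (F o).v_mem) (Sy.LI_v.comp F hF)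
  convert h using 1
  funext o
  cases o with
  | none =>
    show (1 : ℝ) = ev 1 1
    rw [Pool.Agent.Y113.ev_one]
  | some p =>
    show mzv p.1 - deformed (p.2 : ℚ) p.1 =
      ev 1 (PW ((p.1.1.head p.1.2.one_le.1 - 1) :: p.1.1.tail.map (· - 1)) (p.2 : ℚ))
    rw [deformed_eq p.1.2.one_le.2 p.2.2.ne', ← List.map_cons (f := (· - 1)), List.cons_head_tail]

/-! ### the defects -/

theorem sum_le_sum_pos (f : ℚ → ℕ) (X : Finset ℚ) (hX : ∀ x ∈ X, 0 ≤ x) :
    ∑ x ∈ X, f x ≤ f 0 + ∑ x ∈ X.subtype (fun x : ℚ => 0 < x), f x := by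
  classical
  rw [Finset.sum_subtype_eq_sum_filter, ← Finset.sum_filter_add_sum_filter_not X (fun x : ℚ => 0 < x) f, add_comm]
  gcongr
  refine (Finset.sum_le_sum_of_subset (t := {0}) fun x hx => ?_).trans (by rw [Finset.sum_singleton])
  rw [Finset.mem_filter] at hx
  rw [Finset.mem_singleton]
  exact le_antisymm (not_lt.1 hx.2) (hX x hx.1)

theorem image_zero {S : Finset (List ℕ)} (hS : ∀ w ∈ S, w ≠ []) : deformed 0 '' (S : Set (List ℕ)) = mzv '' (S : Set (List ℕ)) :=
  image_congr fun w hw => deformed_zero (hS w hw)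

theorem linear_sum {S : Finset (List ℕ)} (hS : ∀ w ∈ S, Admissible w) (X : Finset ℚ) (hX : ∀ x ∈ X, 0 ≤ x) :
    ∑ x ∈ X, linearDefect S (x : ℚ) ≤ S.card := by
  classical
  refine (sum_le_sum_pos (fun x : ℚ => linearDefect S x) X hX).trans ?_
  have hLI : LinearIndependent K (fun o : Option ((X.subtype (fun x : ℚ => 0 < x)) × S) =>
      o.elim (1 : ℝ) (fun q => (fun (x : Pos) w => mzv w - deformed (x : ℚ) w) q.1 q.2)) := by
    let g : (X.subtype (fun x : ℚ => 0 < x)) × S → {w // Admissible w} × Pos := fun q => (⟨q.2, hS _ q.2.2⟩, q.1)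
    have hg : Function.Injective g := by
      rintro ⟨x, w⟩ ⟨x', w'⟩ h
      simp only [g, Prod.mk.injEq, Subtype.mk.injEq] at h
      exact Prod.ext (Subtype.ext h.2) (Subtype.ext h.1)
    have h := main_LI.comp (Option.map g) (Option.map_injective hg)
    convert h using 1
    funext o
    cases o <;> rfl
  have h1 := defect_ineq S (X.subtype (fun x : ℚ => 0 < x)) (1 : ℝ) mzv (fun (x : Pos) w => mzv w - deformed (x : ℚ) w) hLI
  have h2 : linearDefect S ((0 : ℚ) : ℝ) =
      S.card + 1 - Module.finrank K (Submodule.span K (insert (1 : ℝ) (mzv '' (S : Set (List ℕ))))) := by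
    rw [Rat.cast_zero, linearDefect, image_zero fun w hw => (hS w hw).one_le.1]
  have h3 : ∑ x ∈ X.subtype (fun x : ℚ => 0 < x), linearDefect S ((x : ℚ) : ℝ) + 1 ≤
      Module.finrank K (Submodule.span K (insert (1 : ℝ) (mzv '' (S : Set (List ℕ))))) := by
    refine le_trans (le_of_eq ?_) h1
    congr 1
    refine Finset.sum_congr rfl fun x _ => ?_
    have e : (fun w => mzv w - (mzv w - deformed ((x : ℚ) : ℝ) w)) = deformed ((x : ℚ) : ℝ) := by
      funext w
      exact sub_sub_cancel _ _
    show _ = S.card + 1 - Module.finrank K (Submodule.span K (insert (1 : ℝ)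
      ((fun w => mzv w - (mzv w - deformed ((x : ℚ) : ℝ) w)) '' (S : Set (List ℕ)))))
    rw [e, linearDefect]
  have h4 : Module.finrank K (Submodule.span K (insert (1 : ℝ) (mzv '' (S : Set (List ℕ))))) ≤ S.card + 1 := by
    have hfin : (insert (1 : ℝ) (mzv '' (S : Set (List ℕ)))).Finite := (S.finite_toSet.image _).insert _
    have := hfin.fintype
    refine (finrank_span_le_card (R := K) (insert (1 : ℝ) (mzv '' (S : Set (List ℕ))))).trans ?_
    rw [toFinset_card]
    have h5 : (insert (1 : ℝ) (mzv '' (S : Set (List ℕ)))).ncard ≤ S.card + 1 := by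
      refine (ncard_insert_le _ _).trans ?_
      have h6 := ncard_image_le (f := mzv) S.finite_toSet
      rw [ncard_coe_finset] at h6
      omega
    rwa [← Nat.card_coe_set_eq, Nat.card_eq_fintype_card] at h5
  show linearDefect S ((0 : ℚ) : ℝ) + ∑ x ∈ X.subtype (fun x : ℚ => 0 < x), linearDefect S ((x : ℚ) : ℝ) ≤ S.card
  rw [h2]
  omega

theorem linear_count {S : Finset (List ℕ)} (hS : ∀ w ∈ S, Admissible w) (X : Finset ℚ)
    (hX : ∀ x ∈ X, 0 ≤ x ∧ ¬ LinearIndependent K (fun o : Option S => o.elim (1 : ℝ) fun w => deformed (x : ℚ) w)) :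
    X.card ≤ S.card := by
  refine le_trans ?_ (linear_sum hS X fun x hx => (hX x hx).1)
  rw [Finset.card_eq_sum_ones]
  exact Finset.sum_le_sum fun x hx => ld_pos S (1 : ℝ) (deformed (x : ℚ)) (hX x hx).2

theorem AI_K : AlgebraicIndependent K (fun p : {w // NoOne w} × Pos => mzv p.1 - deformed (p.2 : ℚ) p.1) := by
  let g : ({w // NoOne w} × Pos) ⊕ Unit → Option ({w // NoOne w} × Pos) := Sum.elim some fun _ => none
  have hg : Function.Injective g := by
    rintro (a | a) (b | b) h
    · exact congrArg Sum.inl (Option.some.inj h)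
    · exact absurd h (by simp [g])
    · exact absurd h (by simp [g])
    · rfl
  have h1 := main_AI.comp g hg
  have h2 : AlgebraicIndependent ℚ (Sum.elim (fun p : {w // NoOne w} × Pos => mzv p.1 - deformed (p.2 : ℚ) p.1)
      (fun _ : Unit => Real.exp 1)) := by
    convert h1 using 1
    funext o
    cases o <;> rfl
  have h3 := gen_AI h2
  have hr : range (fun _ : Unit => Real.exp 1) = {Real.exp 1} := range_const
  rw [hr] at h3
  exact h3

theorem AI_XS (S : Finset (List ℕ)) (hS : ∀ w ∈ S, NoOne w) (X : Finset Pos) :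
    AlgebraicIndependent K (fun q : X × S => (fun (x : Pos) w => mzv w - deformed (x : ℚ) w) q.1 q.2) := by
  let g : X × S → {w // NoOne w} × Pos := fun q => (⟨q.2, hS _ q.2.2⟩, q.1)
  have hg : Function.Injective g := by
    rintro ⟨x, w⟩ ⟨x', w'⟩ h
    simp only [g, Prod.mk.injEq, Subtype.mk.injEq] at h
    exact Prod.ext (Subtype.ext h.2) (Subtype.ext h.1)
  exact AI_K.comp g hg

theorem algebraic_sum {S : Finset (List ℕ)} (hS : ∀ w ∈ S, NoOne w) (X : Finset ℚ) (hX : ∀ x ∈ X, 0 ≤ x) :
    ∑ x ∈ X, algebraicDefect S (x : ℚ) ≤ S.card := by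
  classical
  refine (sum_le_sum_pos (fun x : ℚ => algebraicDefect S x) X hX).trans ?_
  have h0 := eRk_image_le (k := K) S mzv
  obtain ⟨e, he⟩ := ENat.ne_top_iff_exists.1 (ne_top_of_le_ne_top (ENat.natCast_ne_top _) h0)
  have h1 := alg_defect S (X.subtype (fun x : ℚ => 0 < x)) mzv (fun (x : Pos) w => mzv w - deformed (x : ℚ) w)
    (AI_XS S hS _) (T := mzv '' (S : Set (List ℕ))) (fun w hw => subset_ck _ ⟨w, hw, rfl⟩) (r := e) (by rw [← he])
  simp only [sub_sub_cancel] at h1
  have h2 : algebraicDefect S ((0 : ℚ) : ℝ) ≤ S.card - e := by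
    rw [Rat.cast_zero, algebraicDefect, image_zero fun w hw => (hS w hw).1]
    have h3 := eRk_le_trdeg (k := K) (A := mzv '' (S : Set (List ℕ))) (S.finite_toSet.image _)
    rw [← he] at h3
    have h4 : e ≤ Cardinal.toNat (Algebra.trdeg K (Algebra.adjoin K (mzv '' (S : Set (List ℕ))))) := by exact_mod_cast h3
    omega
  have h3 : ∑ x ∈ X.subtype (fun x : ℚ => 0 < x), algebraicDefect S ((x : ℚ) : ℝ) ≤ e := h1
  have h4 : e ≤ S.card := by
    rw [← he] at h0
    exact_mod_cast h0
  show algebraicDefect S ((0 : ℚ) : ℝ) + ∑ x ∈ X.subtype (fun x : ℚ => 0 < x), algebraicDefect S ((x : ℚ) : ℝ) ≤ S.card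
  omega

theorem algebraic_count {S : Finset (List ℕ)} (hS : ∀ w ∈ S, NoOne w) (X : Finset ℚ)
    (hX : ∀ x ∈ X, 0 ≤ x ∧ ¬ AlgebraicIndependent K (fun w : S => deformed (x : ℚ) w)) : X.card ≤ S.card := by
  classical
  have h0 := eRk_image_le (k := K) S mzv
  obtain ⟨e, he⟩ := ENat.ne_top_iff_exists.1 (ne_top_of_le_ne_top (ENat.natCast_ne_top _) h0)
  have h1 := alg_count S (X.subtype (fun x : ℚ => 0 < x)) mzv (fun (x : Pos) w => mzv w - deformed (x : ℚ) w)
    (AI_XS S hS _) (T := mzv '' (S : Set (List ℕ))) (fun w hw => subset_ck _ ⟨w, hw, rfl⟩) (r := e) (by rw [← he])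
    (fun x hx => by
      simp only [sub_sub_cancel]
      exact (hX x (Finset.mem_subtype.1 hx)).2)
  have h4 : e ≤ S.card := by
    rw [← he] at h0
    exact_mod_cast h0
  have h5 : (X.filter fun x : ℚ => 0 < x).card ≤ e := by
    rwa [← Finset.card_subtype]
  have h6 := Finset.card_filter_add_card_filter_not (s := X) (fun x : ℚ => 0 < x)
  by_cases hz : (0 : ℚ) ∈ X
  · have h7 : (Mk K).eRk (mzv '' (S : Set (List ℕ))) + 1 ≤ S.card := by
      refine eRk_lt_of_dep S mzv fun hcon => (hX 0 hz).2 ?_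
      convert hcon using 1
      funext w
      rw [Rat.cast_zero]
      exact deformed_zero (hS w w.2).1
    have h8 : e + 1 ≤ S.card := by
      rw [← he] at h7
      exact_mod_cast h7
    have h9 : (X.filter fun x : ℚ => ¬ 0 < x).card ≤ 1 := by
      have h10 : (X.filter fun x : ℚ => ¬ 0 < x) ⊆ {0} := fun x hx => by
        rw [Finset.mem_filter] at hx
        rw [Finset.mem_singleton]
        exact le_antisymm (not_lt.1 hx.2) (hX x hx.1).1
      exact (Finset.card_le_card h10).trans (by rw [Finset.card_singleton])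
    omega
  · have h9 : (X.filter fun x : ℚ => ¬ 0 < x) = ∅ := by
      rw [Finset.filter_eq_empty_iff]
      intro x hx hx'
      have h10 := le_antisymm (not_lt.1 hx') (hX x hx).1
      rw [h10] at hx
      exact hz hx
    rw [h9, Finset.card_empty] at h6
    omega

theorem algebraic_over {S : Set (List ℕ)} (hS : ∀ w ∈ S, NoOne w) {r : ℕ} (y : Fin r → ℝ)
    (hy : ∀ w ∈ S, IsAlgebraic (IntermediateField.adjoin K (range y)) (mzv w)) (X : Finset ℚ)
    (hX : ∀ x ∈ X, 0 < x ∧ ¬ AlgebraicIndependent K (fun w : S => deformed (x : ℚ) w)) : X.card ≤ r := by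
  classical
  have h1 : ∀ x ∈ X, ∃ t : Finset (List ℕ), (t : Set (List ℕ)) ⊆ S ∧
      ∀ t' : Finset (List ℕ), t ⊆ t' → ¬ AlgebraicIndependent K (fun w : t' => deformed (x : ℚ) w) := by
    intro x hx
    have h2 := (hX x hx).2
    have h3 : ¬ ∀ t : Set S, t.Finite → AlgebraicIndependent K (fun w : t => deformed (x : ℚ) (w : S)) :=
      fun h => h2 (algebraicIndependent_of_finite_type h)
    push Not at h3
    obtain ⟨t, ht, ht'⟩ := h3
    refine ⟨(ht.image Subtype.val).toFinset, ?_, fun t' htt hcon => ht' ?_⟩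
    · rw [Finite.coe_toFinset]
      rintro _ ⟨w, _, rfl⟩
      exact w.2
    · have h4 : ∀ w : t, ((w : S) : List ℕ) ∈ t' := fun w => htt (by
        rw [Finite.mem_toFinset]
        exact ⟨w, w.2, rfl⟩)
      exact hcon.comp (fun w : t => (⟨((w : S) : List ℕ), h4 w⟩ : t')) fun a b hab =>
        Subtype.ext (Subtype.ext (congrArg (fun z : t' => (z : List ℕ)) hab))
  choose! t ht1 ht2 using h1
  have hT : ∀ w ∈ X.biUnion t, w ∈ S := by
    intro w hw
    rw [Finset.mem_biUnion] at hw
    obtain ⟨x, hx, hw⟩ := hw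
    exact ht1 x hx hw
  have hr : (Mk K).eRk (range y) ≤ r := by
    refine (Matroid.eRk_le_encard _ _).trans ?_
    rw [← image_univ]
    refine (encard_image_le _ _).trans ?_
    rw [encard_univ, ENat.card_eq_coe_fintype_card, Fintype.card_fin]
  have h2 := alg_count (X.biUnion t) (X.subtype (fun x : ℚ => 0 < x)) mzv (fun (x : Pos) w => mzv w - deformed (x : ℚ) w)
    (AI_XS _ (fun w hw => hS w (hT w hw)) _) (T := range y) (fun w hw => mem_ck.2 (hy w (hT w hw))) hr (fun x hx => by
      simp only [sub_sub_cancel]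
      have hx' : (x : ℚ) ∈ X := Finset.mem_subtype.1 hx
      exact ht2 x hx' _ (Finset.subset_biUnion_of_mem t hx'))
  rwa [Finset.card_subtype, Finset.filter_true_of_mem (fun x hx => (hX x hx).1)] at h2

/-! ### relations -/

/-- the value as an algebra homomorphism -/
noncomputable def evA : AS →ₐ[ℚ] ℝ := evB.comp (Subalgebra.inclusion fun _ hf => AA_le hf)

theorem evA_apply (f : AS) : evA f = ev 1 (f : PowerSeries ℚ) := rfl

theorem relation_AI {S : Finset (List ℕ)} (hS : ∀ w ∈ S, Admissible w) (c : List ℕ → ℚ) (a : ℚ) (hc : ∃ w ∈ S, c w ≠ 0)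
    (h : ∑ w ∈ S, (c w : ℝ) * mzv w = a) : AlgebraicIndependent ℚ (fun o : Option Pos =>
      o.elim (Real.exp 1) fun x => ∑ w ∈ S, (c w : ℝ) * deformed (x : ℚ) w) := by
  classical
  let F : Pos → List ℕ → AS := fun x w => ⟨PW (w.map (· - 1)) (x : ℚ), (InA_PW x.2.ne' _).mem⟩
  let f : Pos → AS := fun x => algebraMap ℚ AS a - ∑ w ∈ S, c w • F x w
  have hval : ∀ x : Pos, ev 1 ((f x : AS) : PowerSeries ℚ) = ∑ w ∈ S, (c w : ℝ) * deformed (x : ℚ) w := by
    intro x
    rw [← evA_apply, map_sub, map_sum, AlgHom.commutes]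
    have e : ∀ w ∈ S, evA (c w • F x w) = (c w : ℝ) * mzv w - (c w : ℝ) * deformed (x : ℚ) w := by
      intro w hw
      rw [map_smul, evA_apply, Rat.smul_def, ← mul_sub, deformed_eq (hS w hw).one_le.2 x.2.ne']
    rw [Finset.sum_congr rfl e, Finset.sum_sub_distrib, h]
    simp
  have hcoe : ∀ x : Pos, ((f x : AS) : PowerSeries ℚ) =
      a • (1 : PowerSeries ℚ) - ∑ w ∈ S, c w • PW (w.map (· - 1)) (x : ℚ) := by
    intro x
    have e : (algebraMap ℚ AS a : AS) = a • (1 : AS) := by rw [Algebra.algebraMap_eq_smul_one]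
    show (((algebraMap ℚ AS a - ∑ w ∈ S, c w • F x w : AS)) : PowerSeries ℚ) = _
    rw [e]
    push_cast
    rfl
  have hin : ∀ x : Pos, InA (x : ℚ) ((f x : AS) : PowerSeries ℚ) := by
    intro x
    rw [hcoe]
    exact ((InA.one _).smul a).sub (InA.sum S fun w _ => (InA_PW x.2.ne' _).smul (c w))
  have hnc : ∀ x : Pos, ∀ b : ℚ, ((f x : AS) : PowerSeries ℚ) ≠ PowerSeries.C b := by
    intro x b hb
    rw [hcoe] at hb
    let g : S → {w : List ℕ // w ≠ []} := fun w => ⟨(w : List ℕ).map (· - 1), by simpa using (hS w w.2).one_le.1⟩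
    have hg : Function.Injective g := by
      intro w w' hww
      exact Subtype.ext (map_inj (hS w w.2).one_le.2 (hS w' w'.2).one_le.2 (congrArg Subtype.val hww))
    let c' : {w : List ℕ // w ≠ []} → ℚ := fun v => if hv : ∃ w : S, g w = v then c hv.choose else 0
    have hc' : ∀ w : S, c' (g w) = c w := by
      intro w
      have hv : ∃ w' : S, g w' = g w := ⟨w, rfl⟩
      show (if hv : ∃ w' : S, g w' = g w then c hv.choose else 0) = c w
      rw [dif_pos hv, hg hv.choose_spec]
    refine PW_nonconst x (Finset.univ.image g) (c := c') ?_ (a - b) ?_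
    · obtain ⟨w, hw, hw'⟩ := hc
      exact ⟨g ⟨w, hw⟩, Finset.mem_image_of_mem _ (Finset.mem_univ _), by rw [hc']; exact hw'⟩
    · rw [Finset.sum_image fun w _ w' _ hww => hg hww]
      simp only [hc']
      have e : ∑ w : S, c w • PW ((g w : List ℕ)) (x : ℚ) = ∑ w ∈ S, c w • PW (w.map (· - 1)) (x : ℚ) :=
        Finset.sum_coe_sort S fun w => c w • PW (w.map (· - 1)) (x : ℚ)
      rw [e, map_sub, ← hb, PowerSeries.smul_eq_C_mul, mul_one]
      ring
  have h1 := AI_values (AI_letters (x := fun x : Pos => (x : ℚ)) (fun x => x.2) Subtype.val_injective hin hnc)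
  have e : (fun o : Option Pos => o.elim (Real.exp 1) fun x => ∑ w ∈ S, (c w : ℝ) * deformed (x : ℚ) w) =
      (fun o : Option Pos => o.elim (Real.exp 1) fun x => ev 1 ((f x : AS) : PowerSeries ℚ)) := by
    funext o
    cases o with
    | none => rfl
    | some x => exact (hval x).symm
  rw [e]
  exact h1

theorem relation_unique {S : Finset (List ℕ)} (hS : ∀ w ∈ S, Admissible w) (c : List ℕ → K) (hc : ∃ w ∈ S, c w ≠ 0)
    {x x' : ℚ} (hx : 0 ≤ x) (hx' : x < x')
    (h : ∑ w ∈ S, (c w : ℝ) * deformed x w = ∑ w ∈ S, (c w : ℝ) * deformed x' w) : False := by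
  classical
  have hx0 : 0 < x' := lt_of_le_of_lt hx hx'
  obtain ⟨w0, hw0, hcw0⟩ := hc
  have hz : ∀ w ∈ S, w ≠ [] := fun w hw => (hS w hw).one_le.1
  have hLI : LinearIndependent K (fun p : {w // Admissible w} × Pos => mzv p.1 - deformed (p.2 : ℚ) p.1) :=
    main_LI.comp some (Option.some_injective _)
  have key : ∑ w ∈ S, (c w : ℝ) * (mzv w - deformed x' w) - ∑ w ∈ S, (c w : ℝ) * (mzv w - deformed x w) = 0 := by
    simp only [mul_sub, Finset.sum_sub_distrib]
    rw [h]
    ring
  rcases hx.eq_or_lt with rfl | hxp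
  · have h1 : LinearIndependent K (fun w : S => mzv w - deformed x' w) := by
      refine (hLI.comp (fun w : S => (⟨w, hS w w.2⟩, ⟨x', hx0⟩)) fun a b hab => ?_)
      simp only [Prod.mk.injEq, Subtype.mk.injEq, and_true] at hab
      exact Subtype.ext hab
    have h2 : ∑ w ∈ S, (c w : ℝ) * (mzv w - deformed ((0 : ℚ) : ℝ) w) = 0 := by
      refine Finset.sum_eq_zero fun w hw => ?_
      rw [Rat.cast_zero, deformed_zero (hz w hw), sub_self, mul_zero]
    rw [h2, sub_zero] at key
    have h3 := Fintype.linearIndependent_iff.1 h1 (fun w => c w) (by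
      have e : ∑ w : S, c w • (mzv w - deformed x' w) = ∑ w ∈ S, (c w : ℝ) * (mzv w - deformed x' w) :=
        Finset.sum_coe_sort S fun w => (c w : ℝ) * (mzv w - deformed x' w)
      rw [e, key]) ⟨w0, hw0⟩
    exact hcw0 h3
  · have h1 : LinearIndependent K (Sum.elim (fun w : S => mzv w - deformed x' w) (fun w : S => mzv w - deformed x w)) := by
      let g : S ⊕ S → {w // Admissible w} × Pos :=
        Sum.elim (fun w => (⟨w, hS w w.2⟩, ⟨x', hx0⟩)) (fun w => (⟨w, hS w w.2⟩, ⟨x, hxp⟩))
      have hg : Function.Injective g := by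
        rintro (a | a) (b | b) hab
        · simp only [g, Sum.elim_inl, Prod.mk.injEq, Subtype.mk.injEq, and_true] at hab
          exact congrArg Sum.inl (Subtype.ext hab)
        · simp only [g, Sum.elim_inl, Sum.elim_inr, Prod.mk.injEq, Subtype.mk.injEq] at hab
          exact absurd hab.2 hx'.ne'
        · simp only [g, Sum.elim_inl, Sum.elim_inr, Prod.mk.injEq, Subtype.mk.injEq] at hab
          exact absurd hab.2 hx'.ne
        · simp only [g, Sum.elim_inr, Prod.mk.injEq, Subtype.mk.injEq, and_true] at hab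
          exact congrArg Sum.inr (Subtype.ext hab)
      have h2 := hLI.comp g hg
      convert h2 using 1
      funext o
      cases o <;> rfl
    have h3 := Fintype.linearIndependent_iff.1 h1 (Sum.elim (fun w => c w) (fun w => -c w)) (by
      rw [Fintype.sum_sum_type]
      simp only [Sum.elim_inl, Sum.elim_inr, neg_smul, Finset.sum_neg_distrib]
      have e : ∀ z : ℝ, ∑ w : S, c w • (mzv w - deformed z w) = ∑ w ∈ S, (c w : ℝ) * (mzv w - deformed z w) := fun z =>
        Finset.sum_coe_sort S fun w => (c w : ℝ) * (mzv w - deformed z w)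
      rw [e, e, ← sub_eq_add_neg, key]) (Sum.inl ⟨w0, hw0⟩)
    exact hcw0 h3

theorem algebraic_over_sum {S : Finset (List ℕ)} (hS : ∀ w ∈ S, NoOne w) {r : ℕ} (y : Fin r → ℝ)
    (hy : ∀ w ∈ S, IsAlgebraic (IntermediateField.adjoin K (range y)) (mzv w)) (X : Finset ℚ) (hX : ∀ x ∈ X, 0 < x) :
    ∑ x ∈ X, algebraicDefect S (x : ℚ) ≤ r := by
  classical
  have hr : (Mk K).eRk (range y) ≤ r := by
    refine (Matroid.eRk_le_encard _ _).trans ?_
    rw [← image_univ]
    refine (encard_image_le _ _).trans ?_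
    rw [encard_univ, ENat.card_eq_coe_fintype_card, Fintype.card_fin]
  have h1 := alg_defect S (X.subtype (fun x : ℚ => 0 < x)) mzv (fun (x : Pos) w => mzv w - deformed (x : ℚ) w)
    (AI_XS S hS _) (T := range y) (fun w hw => mem_ck.2 (hy w hw)) hr
  simp only [sub_sub_cancel] at h1
  have h2 := Finset.sum_subtype_eq_sum_filter (s := X) (p := fun x : ℚ => 0 < x) (fun x : ℚ => algebraicDefect S (x : ℚ))
  rw [Finset.filter_true_of_mem hX] at h2
  rw [← h2]
  exact h1

/-! ### the words `(2, …, 2)` -/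

theorem twos_mem {F : Subfield ℝ} (hpi : Real.pi ∈ F) (k : ℕ) : mzv (List.replicate k 2) ∈ F := by
  refine newton_mem (a := fun n : ℕ => 1 / ((n : ℝ) + 1) ^ 2) (T := fun k N => trunc (List.replicate k 2) N)
    (L := fun k => mzv (List.replicate k 2)) (p := fun j => Pool.Agent.R352.E.zt (2 * (j + 1))) (fun N => ?_) (fun k => ?_)
    (fun k N => ?_) (fun k => ?_) (fun j => ?_) (fun j => zt_even_mem hpi (j + 1) (Nat.succ_ne_zero j)) k
  · rw [List.replicate_zero, trunc]
  · exact trunc_zero (by simp)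
  · show trunc (List.replicate (k + 1) 2) (N + 1) = _
    rw [List.replicate_succ, trunc_succ]
    ring
  · cases k with
    | zero =>
      have e : (fun N => trunc (List.replicate 0 2) N) = fun _ => (1 : ℝ) := by
        funext N
        rw [List.replicate_zero, trunc]
      rw [e, List.replicate_zero, mzv]
      exact tendsto_const_nhds
    | succ k =>
      exact tendsto_trunc ⟨2, List.replicate k 2, rfl, le_rfl, fun m hm => by rw [List.eq_of_mem_replicate hm]; norm_num⟩
  · have h1 : Summable (fun n : ℕ => 1 / ((n : ℝ) + 1) ^ (2 * (j + 1))) := by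
      have h2 : Summable (fun k : ℕ => 1 / (k : ℝ) ^ (2 * (j + 1))) := Real.summable_one_div_nat_pow.2 (by omega)
      have h3 := (summable_nat_add_iff 1).2 h2
      simpa using h3
    have h4 := h1.hasSum.tendsto_sum_nat
    have e : (fun N => ∑ n ∈ Finset.range N, (1 / ((n : ℝ) + 1) ^ 2) ^ (j + 1)) =
        fun N => ∑ n ∈ Finset.range N, 1 / ((n : ℝ) + 1) ^ (2 * (j + 1)) := by
      funext N
      refine Finset.sum_congr rfl fun n _ => ?_
      rw [div_pow, one_pow, ← pow_mul]
    rw [e]
    exact h4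

/-- the word `(2, …, 2)` with `k + 1` entries -/
abbrev twos (k : ℕ) : List ℕ := List.replicate (k + 1) 2

theorem twos_inj : Function.Injective twos := by
  intro a b h
  have := congrArg List.length h
  simpa using this

theorem twos_noOne (k : ℕ) : NoOne (twos k) :=
  ⟨by simp, fun m hm => by rw [List.eq_of_mem_replicate hm]⟩

theorem twos_alg (k : ℕ) :
    IsAlgebraic (IntermediateField.adjoin K (range fun _ : Fin 1 => Real.pi)) (mzv (twos k)) := by
  have h1 : Real.pi ∈ IntermediateField.adjoin K (range fun _ : Fin 1 => Real.pi) :=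
    IntermediateField.subset_adjoin _ _ ⟨0, rfl⟩
  have h2 : mzv (twos k) ∈ (IntermediateField.adjoin K (range fun _ : Fin 1 => Real.pi)).toSubfield :=
    twos_mem h1 (k + 1)
  exact isAlgebraic_algebraMap (⟨mzv (twos k), h2⟩ : IntermediateField.adjoin K (range fun _ : Fin 1 => Real.pi))

theorem twos_unique {x x' : ℚ} (hx : 0 < x) (hx' : 0 < x')
    (h : ¬ AlgebraicIndependent K (fun k : ℕ => deformed x (twos k)))
    (h' : ¬ AlgebraicIndependent K (fun k : ℕ => deformed x' (twos k))) : x = x' := by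
  classical
  by_contra hne
  have key : ∀ z : ℝ, ¬ AlgebraicIndependent K (fun k : ℕ => deformed z (twos k)) →
      ¬ AlgebraicIndependent K (fun w : range twos => deformed z w) := by
    intro z hz hcon
    exact hz (hcon.comp (fun k => (⟨twos k, k, rfl⟩ : range twos)) fun a b hab => twos_inj (congrArg Subtype.val hab))
  have h1 := algebraic_over (S := range twos) (by rintro _ ⟨k, rfl⟩; exact twos_noOne k) (fun _ : Fin 1 => Real.pi)
    (by rintro _ ⟨k, rfl⟩; exact twos_alg k) {x, x'} (by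
      intro z hz
      rw [Finset.mem_insert, Finset.mem_singleton] at hz
      rcases hz with rfl | rfl
      · exact ⟨hx, key _ h⟩
      · exact ⟨hx', key _ h'⟩)
  rw [Finset.card_pair hne] at h1
  omega

theorem twos_trdeg {x : ℚ} (hx : 0 < x) (n : ℕ) :
    n ≤ Cardinal.toNat (Algebra.trdeg K (Algebra.adjoin K ((fun k => deformed x (twos k)) '' (Iic n : Set ℕ)))) := by
  classical
  have h1 := algebraic_over_sum (S := (Finset.range (n + 1)).image twos)
    (by
      intro w hw
      obtain ⟨k, _, rfl⟩ := Finset.mem_image.1 hw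
      exact twos_noOne k) (fun _ : Fin 1 => Real.pi)
    (by
      intro w hw
      obtain ⟨k, _, rfl⟩ := Finset.mem_image.1 hw
      exact twos_alg k) {x} (by
      intro z hz
      rw [Finset.mem_singleton.1 hz]
      exact hx)
  rw [Finset.sum_singleton, algebraicDefect, Finset.card_image_of_injective _ twos_inj, Finset.card_range] at h1
  have e : deformed (x : ℝ) '' (((Finset.range (n + 1)).image twos : Finset (List ℕ)) : Set (List ℕ)) =
      (fun k => deformed x (twos k)) '' (Iic n : Set ℕ) := by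
    rw [Finset.coe_image, image_image]
    congr 1
    ext k
    simp
  rw [e] at h1
  omega

theorem result :
    -- (0) the limits, and the case `x = 0`
    (∀ w, Admissible w → Tendsto (trunc w) atTop (nhds (mzv w)) ∧ deformed 0 w = mzv w) ∧
    -- (1) algebraic independence; the words without the exponent `1` contain the Hoffman words
    AlgebraicIndependent ℚ (fun o : Option ({w // NoOne w} × Pos) =>
      o.elim (Real.exp 1) fun p => mzv p.1 - deformed (p.2 : ℚ) p.1) ∧
    -- (2) linear independence over `ℚ(e)`; a linear relation holds for at most one `x`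
    LinearIndependent K (fun o : Option ({w // Admissible w} × Pos) =>
      o.elim (1 : ℝ) fun p => mzv p.1 - deformed (p.2 : ℚ) p.1) ∧
    (∀ S : Finset (List ℕ), (∀ w ∈ S, Admissible w) → ∀ (c : List ℕ → K) (a : K), (∃ w ∈ S, c w ≠ 0) →
      ∀ x x' : ℚ, 0 ≤ x → 0 ≤ x' → ∑ w ∈ S, (c w : ℝ) * deformed x w = a → ∑ w ∈ S, (c w : ℝ) * deformed x' w = a →
        x = x') ∧
    -- (3) the linear defects
    (∀ S : Finset (List ℕ), (∀ w ∈ S, Admissible w) →
      (∀ X : Finset ℚ, (∀ x ∈ X, 0 ≤ x) → ∑ x ∈ X, linearDefect S (x : ℚ) ≤ S.card) ∧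
      (∀ X : Finset ℚ, (∀ x ∈ X, 0 ≤ x ∧
        ¬ LinearIndependent K (fun o : Option S => o.elim (1 : ℝ) fun w => deformed (x : ℚ) w)) → X.card ≤ S.card)) ∧
    -- (4) the algebraic defects
    (∀ S : Finset (List ℕ), (∀ w ∈ S, NoOne w) →
      (∀ X : Finset ℚ, (∀ x ∈ X, 0 ≤ x) → ∑ x ∈ X, algebraicDefect S (x : ℚ) ≤ S.card) ∧
      (∀ X : Finset ℚ, (∀ x ∈ X, 0 ≤ x ∧ ¬ AlgebraicIndependent K (fun w : S => deformed (x : ℚ) w)) →
        X.card ≤ S.card)) ∧
    -- (5) words whose multiple zeta values are algebraic over `K(y_1, …, y_r)`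
    (∀ (S : Set (List ℕ)) (r : ℕ) (y : Fin r → ℝ),
      (∀ w ∈ S, NoOne w ∧ IsAlgebraic (IntermediateField.adjoin K (range y)) (mzv w)) →
      (∀ X : Finset ℚ, (∀ x ∈ X, 0 < x ∧ ¬ AlgebraicIndependent K (fun w : S => deformed (x : ℚ) w)) → X.card ≤ r) ∧
      (∀ T : Finset (List ℕ), (T : Set (List ℕ)) ⊆ S → ∀ X : Finset ℚ, (∀ x ∈ X, 0 < x) →
        ∑ x ∈ X, algebraicDefect T (x : ℚ) ≤ r)) ∧
    -- (6) the words `(2, …, 2)`
    (∀ x x' : ℚ, 0 < x → 0 < x' → ¬ AlgebraicIndependent K (fun k : ℕ => deformed x (twos k)) →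
      ¬ AlgebraicIndependent K (fun k : ℕ => deformed x' (twos k)) → x = x') ∧
    (∀ x : ℚ, 0 < x → ∀ n : ℕ,
      n ≤ Cardinal.toNat (Algebra.trdeg K (Algebra.adjoin K ((fun k => deformed x (twos k)) '' (Iic n : Set ℕ))))) ∧
    -- (7) relations between multiple zeta values
    (∀ S : Finset (List ℕ), (∀ w ∈ S, Admissible w) → ∀ (c : List ℕ → ℚ) (a : ℚ), (∃ w ∈ S, c w ≠ 0) →
      ∑ w ∈ S, (c w : ℝ) * mzv w = a →
      AlgebraicIndependent ℚ (fun o : Option Pos =>
        o.elim (Real.exp 1) fun x => ∑ w ∈ S, (c w : ℝ) * deformed (x : ℚ) w)) := by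
  refine ⟨fun w hw => ⟨tendsto_trunc hw, deformed_zero hw.one_le.1⟩, main_AI, main_LI, ?_,
    fun S hS => ⟨linear_sum hS, linear_count hS⟩, fun S hS => ⟨algebraic_sum hS, algebraic_count hS⟩,
    fun S r y h => ⟨algebraic_over (fun w hw => (h w hw).1) y fun w hw => (h w hw).2, fun T hT X hX =>
      algebraic_over_sum (fun w hw => (h w (hT hw)).1) y (fun w hw => (h w (hT hw)).2) X hX⟩,
    fun x x' hx hx' h h' => twos_unique hx hx' h h', fun x hx n => twos_trdeg hx n,
    fun S hS c a hc h => relation_AI hS c a hc h⟩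
  intro S hS c a hc x x' hx hx' h h'
  rcases lt_trichotomy x x' with hlt | heq | hlt
  · exact (relation_unique hS c hc hx hlt (h.trans h'.symm)).elim
  · exact heq
  · exact (relation_unique hS c hc hx' hlt (h'.trans h.symm)).elim

end Pool.Agent.Results.MP_c2d7b4_nt.DeformedHoffmanH73
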