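import Mathlib
import Pool.Agent.V7H97.SH.Fin
import Pool.Agent.V7H97.SH.Small
import Pool.Agent.V7H97.SH.Ae

set_option autoImplicit false

/-!
# Scaled multiple zeta values

For a word `w = (n_1, …, n_r)` and a real number `t` with `t n_i > 1` for all `i` let
`Z t w = ζ(t n_1, …, t n_r) = ∑_{k_1 > … > k_r ≥ 1} (k_1 ^ n_1 ⋯ k_r ^ n_r) ^ (-t)`.
The question Q1 is about the case `t = 1`; for positive integers `t` these are multiple zeta values again.

(1) Let `K` be a countable field of real numbers, for instance the field of the real algebraic numbers, and `q ≥ 1`. For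
all real `t > 1 / q` with at most countably many exceptions the numbers `Z t w`, where `w` runs over ALL words with letters
`≥ q`, are linearly independent over `K`; so there are no relations besides those which come from the stuffle product.
For `q = 2` all the words in `2` and `3` are among them: the independence of the Hoffman elements holds for all but
countably many `t > 1 / 2`, while they span the other `Z t w` only for countably many `t`, as in the case `t = 1` (Brown).

(2) A fixed relation `∑ a_w Z t w = 0`, with real coefficients which are not all zero, holds for finitely many `t ≥ c`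
only, for every `c > 1 / q`. In particular it fails for all but finitely many positive integers `t` (`q ≥ 2`).

(3) Let `S` be a finite set of words with letters `≥ q`. There are `M ≥ 1`, `κ > 0` and `T` such that for all real
`t ≥ T` and all integers `a_w` with `|a_w| ≤ exp (κ t)`, not all zero, `|∑_{w ∈ S} a_w Z t w| ≥ M ^ (-t)`.

(4) For almost every real `t > 1 / q` and every finite set `S` of words with letters `≥ q` there is an exponent `τ`
such that `|∑_{w ∈ S} a_w Z t w| ≥ H ^ (-τ)` for all large `H` and all integers `a_w` with `|a_w| ≤ H`, not all zero.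

The proof: the coefficient of `m ^ (-t)` in `∑ a_w Z t w` is `∑ b_u S_u(m)` with `b_u = a_u + ∑_x a_{ux}`, where
`S_u(m)` is the number of the tuples with `k_r ≥ 2`. If `m` has as many prime factors as a word `u` with `b_u ≠ 0` of
smallest weight and is `p_1 ^ n_1 ⋯ p_r ^ n_r` with primes `p_1 > … > p_r`, this coefficient is `b_u`. For (4) the minimum
modulus theorem (Cartan) gives a uniform bound for the measure of the set where `|∑ a_w Z t w|` is small.
-/

namespace Pool.Agent.Results.MP_c2d7b4_nt.ScaledHoffmanH97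

open Pool.Agent.V7H97.SH

theorem result :
    -- (1)
    (∀ q : ℕ, 1 ≤ q → ∀ (K : Type) [Field K] [Algebra K ℝ] [Countable K],
      {t : ℝ | 1 < t * q ∧ ¬ LinearIndependent K (fun w : Word q => Z t w.1)}.Countable) ∧
    -- the consequence for the Hoffman elements
    (∀ (K : Type) [Field K] [Algebra K ℝ] [Countable K], ∃ E : Set ℝ, E.Countable ∧
      ∀ t : ℝ, 1 / 2 < t → t ∉ E → LinearIndependent K (fun w : Hoffman => Z t w.1) ∧
        Z t [4] ∉ Submodule.span K (Set.range fun w : Hoffman => Z t w.1)) ∧
    -- (2)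
    (∀ q : ℕ, 1 ≤ q → ∀ c : ℝ, 1 < c * q → ∀ a : Word q →₀ ℝ, a ≠ 0 →
      {t : ℝ | c ≤ t ∧ (a.sum fun w x => x * Z t w.1) = 0}.Finite) ∧
    -- (3)
    (∀ q : ℕ, 1 ≤ q → ∀ S : Finset (List ℕ), (∀ w ∈ S, ∀ n ∈ w, q ≤ n) →
      ∃ M κ T : ℝ, 1 ≤ M ∧ 0 < κ ∧ ∀ t : ℝ, T ≤ t → ∀ a : List ℕ → ℤ, (∃ w ∈ S, a w ≠ 0) →
        (∀ w ∈ S, |(a w : ℝ)| ≤ Real.exp (κ * t)) → M ^ (-t) ≤ |∑ w ∈ S, (a w : ℝ) * Z t w|) ∧
    -- (4)
    (∀ q : ℕ, 1 ≤ q → ∀ᵐ t : ℝ, 1 < t * q → ∀ S : Finset (Word q), ∃ τ : ℝ, ∀ᶠ H : ℕ in Filter.atTop,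
      ∀ a : S → ℤ, a ≠ 0 → (∀ w, |a w| ≤ H) → (H : ℝ) ^ (-τ) ≤ |∑ w, (a w : ℝ) * Z t w.1.1|) := by
  refine ⟨fun q hq K _ _ _ => countable_exceptions hq K, ?_, fun q hq c hc a h0 => finite_zeros' hq hc a h0,
    fun q hq S hS => small_relations hq S hS, fun q hq => ae_measure hq⟩
  intro K _ _ _
  refine ⟨_, countable_exceptions (q := 2) (by norm_num) K, ?_⟩
  intro t ht hE
  have h : LinearIndependent K (fun w : Word 2 => Z t w.1) := by
    by_contra h
    apply hE
    refine ⟨?_, h⟩
    push_cast
    linarith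
  refine ⟨?_, not_span h⟩
  let i : Hoffman → Word 2 := fun w => ⟨w.1, fun n hn => by
    have := w.2 n hn
    omega⟩
  have hi : Function.Injective i := fun v w hvw => by
    have := congrArg Subtype.val hvw
    exact Subtype.ext this
  exact h.comp i hi

end Pool.Agent.Results.MP_c2d7b4_nt.ScaledHoffmanH97
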