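import Pool.Agent.V7H56.HL.Words

/-!
# Hoffman's conjecture: sparse sets of words

The words are the lists in the letters `2` and `3`, and the Hoffman elements are their multiple zeta
values. The level of a word is the number of its letters `3`. Under the known motivic theorems (they
are hypotheses) it is shown that the conjecture follows from the linear independence of the values of
the words in rather small sets `S`: the weights may be sparse (it is enough that their counting
function is not `O(log N)`), and either almost all words of these weights, for instance those with a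
given factor, are in `S`, or all words with few letters `3`; if all weights are allowed, then at most
`ℓ(n)` letters `3` for the weight `n`, where `ℓ(n)` tends to infinity arbitrarily slowly.

The proof: a nonzero relation is a nonzero element `P` of the kernel of the period map. Let `k` be
its top weight, and let `a + b`, `b ∈ I`, be more than `k` weights. Elimination without fractions,
applied to the remainders of `P_k ^ b t ^ b` modulo `P_0 + P_1 t + ⋯ + P_k t ^ k`, gives a nonzero
multiple of `P` with weights in `Γ + I`, where `Γ ≤ 3 ^ k k (B + 1)` if `I` is in `[0, B]`. If `a` is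
much larger than `B`, then this multiple can be multiplied by all homogeneous elements of weight
`a - Γ`, and this gives more relations between the values with weights in `a + I` than there are words
of these weights outside `S`. It can also be multiplied by `ζ(2) ^ j` or `ζ(2) ^ j ζ(3)`, and this
gives a relation between the values of words of small level.
-/

set_option autoImplicit false

open Filter Pool.Agent.V7H32.MZ Pool.Agent.V7H32.MH Pool.Agent.V7H56.HW Pool.Agent.V7H56.HL

namespace Pool.Agent.Results.MP_c2d7b4_nt.SparseWeightsH56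

/-- The counting function of `A` is not `O(log N)`. -/
def NotLogarithmic (A : Set ℕ) : Prop :=
  ∀ K : ℝ, ∃ N : ℕ, 2 ≤ N ∧ K * Real.log N < {n ∈ A | n ≤ N}.ncard

theorem result (hB : Brown) :
    (∀ _ : Motivic,
      -- (1) rich sets of words
      (∀ S : Set (List ℕ), (∀ l ∈ S, IsWord l) → Rich S →
        (HoffmanBasis ↔ LinearIndependent ℚ (fun l : S => val l))) ∧
      -- (2) sparse weights and words with a given factor
      (∀ A : Set ℕ, NotLogarithmic A → ∀ u : List ℕ, IsWord u →
        (HoffmanBasis ↔ LinearIndependent ℚ
          (fun l : {l : List ℕ | IsWord l ∧ u <:+: l ∧ l.sum ∈ A} => val l))) ∧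
      -- (3) the finite version
      (∀ (k a B : ℕ) (I : Finset ℕ), k < I.card → (∀ n ∈ I, a ≤ n ∧ n ≤ a + B) →
        3 ^ k * (k * (B + 1)) < a → ∀ T : Set (List ℕ), (∀ l ∈ T, IsWord l ∧ l.sum ∈ I) →
        ∑ n ∈ I, {l : List ℕ | IsWord l ∧ l.sum = n}.ncard <
          T.ncard + {l : List ℕ | IsWord l ∧ l.sum = a - 3 ^ k * (k * (B + 1))}.ncard →
        LinearIndependent ℚ (fun l : T => val l) →
        LinearIndependent ℚ (fun l : {l : List ℕ | IsWord l ∧ l.sum ≤ k} => val l))) ∧
    (∀ _ : MotivicWords,
      -- (4) sets with all words of small level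
      (∀ S : Set (List ℕ), (∀ l ∈ S, IsWord l) → LevelRich S →
        (HoffmanBasis ↔ LinearIndependent ℚ (fun l : S => val l))) ∧
      -- (5) all weights, slowly growing level
      (∀ ℓ : ℕ → ℕ, Tendsto ℓ atTop atTop → (HoffmanBasis ↔ LinearIndependent ℚ
        (fun l : {l : List ℕ | IsWord l ∧ l.count 3 ≤ ℓ l.sum} => val l))) ∧
      -- (6) sparse weights, small share of letters `3`
      (∀ A : Set ℕ, NotLogarithmic A → ∀ ε : ℝ, 0 < ε → (HoffmanBasis ↔ LinearIndependent ℚ
        (fun l : {l : List ℕ | IsWord l ∧ l.sum ∈ A ∧ (l.count 3 : ℝ) ≤ ε * l.sum} => val l))) ∧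
      -- (7) the finite version
      (∀ m j : ℕ, LinearIndependent ℚ (fun l : {l : List ℕ | IsWord l ∧ 2 * j ≤ l.sum ∧
          l.sum ≤ 2 * j + m ∧ 3 * l.count 3 ≤ m} => val l) →
        LinearIndependent ℚ (fun l : {l : List ℕ | IsWord l ∧ l.sum ≤ m} => val l)) ∧
      -- (8) one weight at a time
      (∀ (A : Set ℕ) (ℓ : ℕ → ℕ), A.Infinite → Tendsto ℓ atTop atTop →
        ((∀ N, LinearIndependent ℚ (fun l : {l : List ℕ | IsWord l ∧ l.sum = N} => val l)) ↔
          ∀ N ∈ A, LinearIndependent ℚ
            (fun l : {l : List ℕ | IsWord l ∧ l.sum = N ∧ l.count 3 ≤ ℓ N} => val l)))) ∧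
    -- (9) the `r`-th powers
    (∀ r : ℕ, 0 < r → NotLogarithmic {n : ℕ | ∃ m, n = m ^ r}) := by
  refine ⟨fun M => ⟨fun S hS hR => rich M hB S hS hR, fun A hA u hu => ?_,
    fun k a B I hI hIa ha T hT hcard h => one_cluster M hB I hI hIa ha T hT hcard h⟩,
    fun M => ⟨fun S hS hR => few M hB S hS hR,
      fun ℓ hℓ => few M hB _ (fun l hl => hl.1) (levelRich_univ hℓ),
      fun A hA ε hε => few M hB _ (fun l hl => hl.1)
        (levelRich_clustered (clustered_of_counting hA) hε),
      fun m j h => few_finite M m j h,
      fun A ℓ hA hℓ => few_homogeneous M A hA hℓ⟩,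
    fun r hr => counting_pow hr⟩
  exact sparse M hB (clustered_of_counting hA) {l : List ℕ | IsWord l ∧ u <:+: l ∧ l.sum ∈ A}
    (fun l hl => ⟨hl.1, hl.2.2⟩) (almostAll_factor hu A)

end Pool.Agent.Results.MP_c2d7b4_nt.SparseWeightsH56
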