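import Pool.Agent.V7H62.DH.Ext2
import Pool.Agent.V7H62.DH.Tup
import Pool.Agent.V7H43.DH.CHEB
import Pool.Agent.V7H43.DH.TAIL
import Pool.Agent.V7H63.DH.IND
import Pool.Agent.V7H63.DH.INDT
import Pool.Agent.V7H67.DH.LI
import Pool.Agent.V7H30.DH.TRI
import Pool.Agent.V7H89.DH.ALG

/-!
# Truncated multiple zeta values and their tails form Chebyshev systems

For a word `w = (n_1, …, n_r)` of positive integers let `z w N` be the truncated value, the sum of
`1 / (k_1^n_1 ⋯ k_r^n_r)` over `N ≥ k_1 > ⋯ > k_r ≥ 1`, and, if `w` is admissible (`n_1 ≥ 2`) or empty, let `t w N`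
be the tail, the sum over all `k_1 > ⋯ > k_r > N`; so `t w 0 = ζ(w)` is the multiple zeta value.

Hoffman's conjecture says that the numbers `t w 0`, `w` a word in `2` and `3`, are linearly independent over `ℚ`.
We show that this is equivalent to the linear independence of the numbers `t w N` for any one `N`, and that a
nontrivial linear relation between the `t w N`, even with real coefficients, can hold for only a few large `N`:

* every polynomial with real coefficients in `N`, truncated values and tails is eventually zero, eventually positive or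
  eventually negative, and so are all its iterated differences; families of such sequences which are linearly
  independent over `ℝ` near infinity have determinants `det (F_j (N_i))` of constant nonzero sign;
* the truncated values of different words, and the tails of different words, are such families, also with polynomial
  coefficients; a nonzero polynomial in `N` and the values `z [n] N` (or `t [n] N`, `n ≥ 2`) has fewer zeros near
  infinity than monomials;
* a linear combination of truncated values converges strictly monotonically to its limit, from some `N` on;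
* for a set of words which contains the prefixes of its words the rational span of the tails does not depend on `N`.

The proof: a maximal set of germs of sequences which is a field, closed under the shift, and in which every element has
a sign near infinity, is closed under summation (a discrete version of the theory of Hardy fields), hence contains
the truncated values and the tails; independent elements of such a field form a Chebyshev system near infinity (division
and differences); a pole argument shows the linear independence over the polynomials.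
-/

set_option autoImplicit false

open Filter Finset

namespace Pool.Agent.Results.MP_c2d7b4_nt.TruncatedValuesH62

open Pool.Agent.V7H62.DH

/-- the variables: one for `N`, one for the truncated value of every word, one for the tail of every admissible
(or empty) word -/
abbrev Var : Type := Option (List ℕ ⊕ {w : List ℕ // Adm w})

/-- what is substituted for the variables -/
noncomputable def val (N : ℕ) : Var → ℝ
  | none => N
  | some (Sum.inl w) => z w N
  | some (Sum.inr w) => t w.1 N

/-- the sequence of a polynomial in `N`, truncated values and tails -/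
noncomputable def seq (F : MvPolynomial Var ℝ) (N : ℕ) : ℝ := MvPolynomial.eval (val N) F

/-- the `k`-th difference -/
def diff : ℕ → (ℕ → ℝ) → ℕ → ℝ
  | 0, y => y
  | k + 1, y => fun N => diff k y (N + 1) - diff k y N

/-- eventually zero, positive or negative -/
def HasSign (y : ℕ → ℝ) : Prop :=
  (∀ᶠ N in atTop, y N = 0) ∨ (∀ᶠ N in atTop, 0 < y N) ∨ (∀ᶠ N in atTop, y N < 0)

/-- `det (y j (N i))` has a constant nonzero sign for `N 0 < N 1 < ⋯` from some bound on -/
def ConstantSign {s : ℕ} (y : Fin s → ℕ → ℝ) : Prop :=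
  ∃ (N₀ : ℕ) (σ : ℝ), (σ = 1 ∨ σ = -1) ∧ ∀ N : Fin s → ℕ, StrictMono N → (∀ i, N₀ ≤ N i) →
    0 < σ * (Matrix.of fun i j => y j (N i)).det

/-- From some bound on, which depends only on `S` and `m`, a sum of the `g w`, `w ∈ S`, with polynomial coefficients of
degree less than `m`, not all zero, has less than `m |S|` zeros. -/
def FewZeros (g : List ℕ → ℕ → ℝ) (S : Finset (List ℕ)) (m : ℕ) : Prop :=
  ∃ N₀ : ℕ, ∀ P : List ℕ → Polynomial ℝ, (∀ w ∈ S, (P w).degree < m) → (∃ w ∈ S, P w ≠ 0) →
    {N : ℕ | N₀ ≤ N ∧ ∑ w ∈ S, (P w).eval (N : ℝ) * g w N = 0}.encard < ((m * S.card : ℕ) : ℕ∞)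

/-- The sum of `1 / (k_1^n_1 ⋯ k_r^n_r)` over all `k_1 > ⋯ > k_r > N`, written as one sum over tuples; for `N = 0` this is
the multiple zeta value as in the frozen statement of Q1. -/
noncomputable def Z (N r : ℕ) (n : Fin r → ℕ) : ℝ :=
  ∑' k : {k : Fin r → ℕ // StrictAnti k ∧ ∀ i, N < k i}, ∏ i, ((k.1 i : ℝ) ^ (n i))⁻¹

/-- the index tuples of the Hoffman elements, as in the frozen statement of Q1 -/
abbrev HoffmanTuple : Type := Σ r : ℕ, {n : Fin r → ℕ // ∀ i, n i = 2 ∨ n i = 3}

/-- the Hoffman words -/
def Hoffman : Set (List ℕ) := {w | ∀ n ∈ w, n = 2 ∨ n = 3}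

theorem hoffman_adm {w : List ℕ} (hw : w ∈ Hoffman) : Adm w := by
  refine ⟨fun n hn => ?_, fun n v hv => ?_⟩
  · rcases hw n hn with h | h <;> omega
  · rcases hw n (by rw [hv]; simp) with h | h <;> omega

theorem z_eq_hz (w : List ℕ) (N : ℕ) : z w N = hz 0 w N := by
  induction w generalizing N with
  | nil => rw [z, hz]
  | cons n w ih =>
    rw [z, hz]
    refine sum_congr rfl fun k _ => ?_
    rw [ih]
    simp

theorem seq_mem {H : Set (ℕ → ℝ)} (hH : IsHF H)
    (hs : ∀ y : ℕ → ℝ, (fun N => y (N + 1) - y N) ∈ H → y ∈ H) (F : MvPolynomial Var ℝ) :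
    seq F ∈ H := by
  induction F using MvPolynomial.induction_on with
  | C a =>
    have e : seq (MvPolynomial.C a) = fun _ => a := by funext N; simp [seq]
    rw [e]
    exact hH.const a
  | add p q hp hq =>
    have e : seq (p + q) = fun N => seq p N + seq q N := by funext N; simp [seq]
    rw [e]
    exact hH.add _ hp _ hq
  | mul_X p i hp =>
    have hi : (fun N => val N i) ∈ H := by
      rcases i with _ | w | w
      · exact hH.nat
      · exact z_mem hH hs w
      · exact t_mem Pool.Agent.V7H43.DH.t_TAIL hH hs w.1 w.2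
    have e : seq (p * MvPolynomial.X i) = fun N => seq p N * val N i := by funext N; simp [seq]
    rw [e]
    exact hH.mul _ hp _ hi

theorem diff_mem {H : Set (ℕ → ℝ)} (hH : IsHF H) {y : ℕ → ℝ} (hy : y ∈ H) (k : ℕ) :
    diff k y ∈ H := by
  induction k with
  | zero => exact hy
  | succ k ih =>
    have h1 := hH.add _ (hH.shift _ ih) _ (hH.mul _ (hH.const (-1)) _ ih)
    have e : diff (k + 1) y = fun N => diff k y (N + 1) + -1 * diff k y N := by
      funext N
      rw [diff]
      ring
    rw [e]
    exact h1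

theorem tri : Tri := Pool.Agent.V7H30.DH.t_TRI Pool.Agent.V7H43.DH.t_TAIL

/-- from independence over the polynomials to a family indexed by `Fin s` -/
theorem indep_fin {g : List ℕ → ℕ → ℝ} {A : List ℕ → Prop}
    (hi : ∀ S : Finset (List ℕ), (∀ w ∈ S, A w) → ∀ P : List ℕ → Polynomial ℝ,
      (∀ᶠ N : ℕ in atTop, ∑ w ∈ S, (P w).eval (N : ℝ) * g w N = 0) → ∀ w ∈ S, P w = 0)
    {s : ℕ} (w : Fin s → List ℕ) (hw : Function.Injective w) (hA : ∀ j, A (w j))
    (c : Fin s → ℝ) (hc : ∀ᶠ N in atTop, ∑ j, c j * g (w j) N = 0) : c = 0 := by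
  classical
  obtain ⟨P, hP⟩ : ∃ P : List ℕ → Polynomial ℝ,
      P = fun v => Polynomial.C (∑ j, if w j = v then c j else 0) := ⟨_, rfl⟩
  have hPw : ∀ j, P (w j) = Polynomial.C (c j) := by
    intro j
    rw [hP]
    simp only []
    congr 1
    rw [sum_eq_single j]
    · simp
    · intro k _ hk
      rw [if_neg fun h => hk (hw h)]
    · intro h
      exact absurd (mem_univ j) h
  have h1 := hi (univ.image w) (fun v hv => by
    obtain ⟨j, -, rfl⟩ := mem_image.1 hv
    exact hA j) P (by
    filter_upwards [hc] with N h1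
    rw [sum_image fun a _ b _ h => hw h, ← h1]
    refine sum_congr rfl fun j _ => ?_
    rw [hPw, Polynomial.eval_C])
  funext j
  have h2 := h1 (w j) (mem_image_of_mem _ (mem_univ j))
  rw [hPw] at h2
  exact Polynomial.C_eq_zero.1 h2

/-- nonzero polynomials with the monomials `M` in the sequences `v · i` have less than `|M|` zeros from some bound on,
which depends only on `M` -/
def FewZerosPoly (v : ℕ → Option ℕ → ℝ) : Prop :=
  ∀ M : Finset (Option ℕ →₀ ℕ), ∃ N₀ : ℕ, ∀ P : MvPolynomial (Option ℕ) ℝ, P ≠ 0 → P.support ⊆ M →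
    {N : ℕ | N₀ ≤ N ∧ MvPolynomial.eval (v N) P = 0}.encard < (M.card : ℕ∞)

theorem conv {H : Set (ℕ → ℝ)} (hH : IsHF H)
    (hs : ∀ y : ℕ → ℝ, (fun N => y (N + 1) - y N) ∈ H → y ∈ H)
    (hI : S_IND) (hz : ∀ w, Adm w → Tendsto (z w) atTop (nhds (t w 0)))
    (S : Finset (List ℕ)) (hS : ∀ w ∈ S, Adm w) (c : List ℕ → ℝ) (hc : ∃ w ∈ S, w ≠ [] ∧ c w ≠ 0) :
    ∃ σ : ℝ, (σ = 1 ∨ σ = -1) ∧ ∀ᶠ N in atTop,
      0 < σ * (∑ w ∈ S, c w * t w 0 - ∑ w ∈ S, c w * z w N) ∧
      0 < σ * (∑ w ∈ S, c w * z w (N + 1) - ∑ w ∈ S, c w * z w N) := by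
  classical
  have hmem : (fun N => ∑ w ∈ S, c w * z w N) ∈ H := by
    have h1 := seq_mem hH hs (∑ w ∈ S, MvPolynomial.C (c w) * MvPolynomial.X (some (Sum.inl w)))
    have e : seq (∑ w ∈ S, MvPolynomial.C (c w) * MvPolynomial.X (some (Sum.inl w))) =
        fun N => ∑ w ∈ S, c w * z w N := by
      funext N
      simp [seq, val]
    rwa [e] at h1
  have hlim : Tendsto (fun N => ∑ w ∈ S, c w * z w N) atTop (nhds (∑ w ∈ S, c w * t w 0)) :=
    tendsto_finsetSum _ fun w hw => (hz w (hS w hw)).const_mul _
  refine mono_conv hH hmem hlim fun hev => ?_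
  obtain ⟨w₀, hw₀, hne, hc₀⟩ := hc
  obtain ⟨P, hP⟩ : ∃ P : List ℕ → Polynomial ℝ, P = fun w =>
      Polynomial.C ((if w ∈ S then c w else 0) - if w = [] then ∑ w ∈ S, c w * t w 0 else 0) := ⟨_, rfl⟩
  have h1 := hI (insert [] S) (fun w hw n hn => by
    rcases mem_insert.1 hw with h | h
    · rw [h] at hn; simp at hn
    · exact (hS w h).1 n hn) P (by
    filter_upwards [hev] with N hN
    have h2 : ∑ w ∈ insert [] S, (P w).eval (N : ℝ) * z w N =
        ∑ w ∈ insert [] S, (if w ∈ S then c w * z w N else 0) -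
        ∑ w ∈ insert [] S, (if w = [] then (∑ w ∈ S, c w * t w 0) * z w N else 0) := by
      rw [← sum_sub_distrib]
      refine sum_congr rfl fun w _ => ?_
      rw [hP]
      simp only [Polynomial.eval_C]
      split_ifs <;> ring
    rw [h2, sum_ite_eq' (insert [] S) [] fun w => (∑ w ∈ S, c w * t w 0) * z w N,
      if_pos (mem_insert_self _ _), show z [] N = 1 by rw [z], mul_one, ← sum_filter]
    have h3 : (insert [] S).filter (fun w => w ∈ S) = S := by
      ext w
      simp only [mem_filter, mem_insert]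
      exact ⟨fun h => h.2, fun h => ⟨Or.inr h, h⟩⟩
    rw [h3]
    linarith) w₀ (mem_insert_of_mem hw₀)
  rw [hP] at h1
  simp only [hw₀, if_true, hne, if_false, sub_zero] at h1
  exact hc₀ (Polynomial.C_eq_zero.1 h1)

theorem result :
    -- the iterated sums are the sums over decreasing tuples
    (∀ (w : List ℕ) (N : ℕ), z w N = hz 0 w N) ∧
    (∀ (N r : ℕ) (n : Fin r → ℕ) (M : ℕ), hz N (List.ofFn n) M =
      ∑' k : {k : Fin r → ℕ // StrictAnti k ∧ ∀ i, N < k i ∧ k i ≤ N + M}, ∏ i, ((k.1 i : ℝ) ^ (n i))⁻¹) ∧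
    (∀ (N r : ℕ) (n : Fin r → ℕ), Adm (List.ofFn n) → t (List.ofFn n) N = Z N r n) ∧
    -- convergence: `t w 0` is the multiple zeta value, the limit of the truncated values
    (∀ w, Adm w → Tendsto (z w) atTop (nhds (t w 0)) ∧
      ∀ N, Tendsto (hz N w) atTop (nhds (t w N))) ∧
    -- polynomials in `N`, truncated values and tails, and their differences of any order, have a sign near infinity
    (∀ (F : MvPolynomial Var ℝ) (k : ℕ), HasSign (diff k (seq F))) ∧
    -- determinants of independent families of such sequences have a constant sign near infinity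
    (∀ (s : ℕ) (F : Fin s → MvPolynomial Var ℝ),
      (∀ c : Fin s → ℝ, (∀ᶠ N in atTop, ∑ j, c j * seq (F j) N = 0) → c = 0) →
      ConstantSign fun j => seq (F j)) ∧
    -- linear combinations vanish for all large `N` or have few zeros near infinity
    (∀ (s : ℕ) (F : Fin s → MvPolynomial Var ℝ), ∃ N₀ : ℕ, ∀ c : Fin s → ℝ,
      (∀ N, N₀ ≤ N → ∑ j, c j * seq (F j) N = 0) ∨
      {N : ℕ | N₀ ≤ N ∧ ∑ j, c j * seq (F j) N = 0}.encard < (s : ℕ∞)) ∧
    -- truncated values of different words
    (∀ (s : ℕ) (w : Fin s → List ℕ), Function.Injective w → (∀ j, ∀ n ∈ w j, 1 ≤ n) →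
      ConstantSign fun j => z (w j)) ∧
    -- tails of different words
    (∀ (s : ℕ) (w : Fin s → List ℕ), Function.Injective w → (∀ j, Adm (w j)) →
      ConstantSign fun j => t (w j)) ∧
    -- the same with polynomial coefficients
    (∀ (S : Finset (List ℕ)) (m : ℕ), (∀ w ∈ S, ∀ n ∈ w, 1 ≤ n) → FewZeros z S m) ∧
    (∀ (S : Finset (List ℕ)) (m : ℕ), (∀ w ∈ S, Adm w) → FewZeros t S m) ∧
    -- polynomials in `N` and the values of the words of length one
    FewZerosPoly pv ∧ FewZerosPoly pt ∧
    -- strictly monotone convergence of linear combinations of truncated values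
    (∀ (S : Finset (List ℕ)) (c : List ℕ → ℝ), (∀ w ∈ S, Adm w) → (∃ w ∈ S, w ≠ [] ∧ c w ≠ 0) →
      ∃ σ : ℝ, (σ = 1 ∨ σ = -1) ∧ ∀ᶠ N in atTop,
        0 < σ * (∑ w ∈ S, c w * t w 0 - ∑ w ∈ S, c w * z w N) ∧
        0 < σ * (∑ w ∈ S, c w * z w (N + 1) - ∑ w ∈ S, c w * z w N)) ∧
    -- the rational span of the tails, and their linear independence over `ℚ`, do not depend on `N`
    (∀ S : Set (List ℕ), (∀ w ∈ S, Adm w) → (∀ w n, w ++ [n] ∈ S → w ∈ S) → ∀ N,
      Submodule.span ℚ ((fun w => t w N) '' S) = Submodule.span ℚ ((fun w => t w 0) '' S) ∧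
      (LinearIndependent ℚ (fun w : S => t w.1 N) ↔ LinearIndependent ℚ (fun w : S => t w.1 0))) ∧
    -- Hoffman's conjecture (linear independence, the case `N = 0`) for the tails at any `N`
    (∀ N, LinearIndependent ℚ (fun w : HoffmanTuple => Z N w.1 w.2.1) ↔
      LinearIndependent ℚ (fun w : HoffmanTuple => Z 0 w.1 w.2.1)) := by
  obtain ⟨H, hH, hs⟩ := t_MAX
  have hC := Pool.Agent.V7H43.DH.t_CHEB
  have hT := Pool.Agent.V7H43.DH.t_TAIL
  have hI : S_IND := Pool.Agent.V7H63.DH.t_IND
  have hIT := Pool.Agent.V7H63.DH.t_INDT hI tri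
  have hLI := Pool.Agent.V7H67.DH.t_LI hT
  have hA := Pool.Agent.V7H89.DH.t_ALG hI
  have hlim : ∀ w, Adm w → Tendsto (z w) atTop (nhds (t w 0)) := by
    intro w hw
    have h1 := hT.1 w hw 0
    have e : z w = hz 0 w := by funext N; exact z_eq_hz w N
    rwa [e]
  have hpv : ∀ i, (fun N => pv N i) ∈ H := by
    intro i
    rcases i with _ | j
    · exact hH.nat
    · exact z_mem hH hs _
  have hpt : ∀ i, (fun N => pt N i) ∈ H := by
    intro i
    rcases i with _ | j
    · exact hH.nat
    · have hadm : Adm [j + 2] := by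
        refine ⟨fun m hm => ?_, fun m v hv => ?_⟩
        · simp at hm; omega
        · simp at hv; omega
      have h1 : t [j + 2] ∈ H := t_mem hT hH hs _ hadm
      exact h1
  have hZ : ∀ (N r : ℕ) (n : Fin r → ℕ), Adm (List.ofFn n) → t (List.ofFn n) N = Z N r n :=
    fun N r n hn => t_eq_tsum hT N r n hn
  refine ⟨z_eq_hz, hz_eq_tsum, hZ, fun w hw => ⟨hlim w hw, hT.1 w hw⟩, fun F k => hH.dich _ (diff_mem hH (seq_mem hH hs F) k),
    fun s F hF => det_sign hC hH (fun j => seq_mem hH hs (F j)) hF,
    fun s F => zeros_gen hC hH s (fun j => seq (F j)) (fun j => seq_mem hH hs (F j)),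
    fun s w hw hA => det_sign hC hH (fun j => z_mem hH hs (w j))
      (indep_fin (A := fun w => ∀ n ∈ w, 1 ≤ n) (fun S hS P hP => hI S hS P hP) w hw hA),
    fun s w hw hA => det_sign hC hH (fun j => t_mem hT hH hs (w j) (hA j)) (indep_fin hIT w hw hA),
    fun S m hS => zeros_poly hC hH z S (fun w _ => z_mem hH hs w) (fun P hP => hI S hS P hP) m,
    fun S m hS => zeros_poly hC hH t S (fun w hw => t_mem hT hH hs w (hS w hw))
      (fun P hP => hIT S hS P hP) m,
    zeros_alg hC hH hpv hA, zeros_alg hC hH hpt (alg_tails hT hA),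
    fun S c hS hc => conv hH hs hI hlim S hS c hc,
    fun S hS hp N => hLI S hS hp N, fun N => ?_⟩
  have key : ∀ N, LinearIndependent ℚ (fun w : HoffmanTuple => Z N w.1 w.2.1) ↔
      LinearIndependent ℚ (fun w : Hoffman => t w.1 N) := by
    intro N
    refine linearIndependent_equiv' tupEquiv ?_
    funext x
    exact hZ N x.1 x.2.1 (hoffman_adm (tupEquiv x).2)
  rw [key N, key 0]
  exact (hLI Hoffman (fun w hw => hoffman_adm hw) (fun w n hw m hm => hw m (by simp [hm])) N).2

end Pool.Agent.Results.MP_c2d7b4_nt.TruncatedValuesH62
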